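import Pool.Agent.W626.AH.Stm

set_option autoImplicit false

namespace Pool.Agent.W409.AH.Vpa

open Pool.Agent.W626.AH

theorem main : Pool.Agent.W626.AH.S_vpa := by
  intro S d hd hm p hp
  obtain ⟨x, y, s, t⟩ := p
  obtain ⟨hs, ht, hst⟩ := hp
  change 0 ≤ s at hs
  change 0 ≤ t at ht
  change |s + t - d x y| < 2 at hst
  have hD : 0 ≤ d x y := by
    have h1 := hd.tri x y x
    rw [hd.self, hd.symm y x] at h1
    linarith
  obtain ⟨P, q, h1, h2, -⟩ := hm x y (min s (d x y)) (min s (d x y)) (le_min hs hD) le_rfl
    (min_le_right _ _)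
  rw [abs_lt] at hst
  refine ⟨P, ?_, ?_, ?_⟩
  · change |d P x - s| ≤ 2
    rw [hd.symm P x, h1, abs_le]
    rcases le_total s (d x y) with h | h
    · rw [min_eq_left h]
      constructor <;> linarith
    · rw [min_eq_right h]
      constructor <;> linarith
  · change |d P y - t| ≤ 2
    rw [h2, abs_le]
    rcases le_total s (d x y) with h | h
    · rw [min_eq_left h]
      constructor <;> linarith
    · rw [min_eq_right h]
      constructor <;> linarith
  · change d P x + d P y = d x y
    rw [hd.symm P x, h1, h2]
    ring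

end Pool.Agent.W409.AH.Vpa
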